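import Pool.Agent.H45.EG3.PTI
import Pool.Agent.H50.EGH.COL

/-!
# EG3, row CHJ: the lemma of Cayley and Hamilton for ideals
-/

set_option autoImplicit false

namespace Pool.EG3

open MvPolynomial Pool.EGH

namespace CHJh

variable {K : Type} [Field K]

/-- The class of the component of degree `m`. -/
noncomputable def pc (J : Ideal (PR K 3)) (m : ℕ) : PR K 3 →ₗ[K] ↥(gp J m) :=
  LinearMap.codRestrict (gp J m)
    ((Ideal.Quotient.mkₐ K J).toLinearMap ∘ₗ homogeneousComponent m)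
    (fun G => ⟨homogeneousComponent m G, homogeneousComponent_mem m G, rfl⟩)

theorem pc_coe (J : Ideal (PR K 3)) (m : ℕ) (G : PR K 3) :
    (pc J m G : PR K 3 ⧸ J) = Ideal.Quotient.mk J (homogeneousComponent m G) := rfl

theorem pc_surj (J : Ideal (PR K 3)) (m : ℕ) (c : ↥(gp J m)) :
    ∃ F ∈ fm K 3 m, pc J m F = c := by
  obtain ⟨c, F, hF, rfl⟩ := c
  refine ⟨F, hF, Subtype.ext ?_⟩
  rw [pc_coe, COLaux.hc_self hF]
  rfl

theorem pc_zero {J : Ideal (PR K 3)} {m : ℕ} {G : PR K 3} (hG : G ∈ fm K 3 m) :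
    pc J m G = 0 ↔ G ∈ J := by
  rw [← Ideal.Quotient.eq_zero_iff_mem, ← Subtype.coe_inj, pc_coe, COLaux.hc_self hG]
  rfl

/-- Multiplication by a linear form. -/
noncomputable def mu (J : Ideal (PR K 3)) {p : PR K 3} (hp : p ∈ fm K 3 1) (m : ℕ) :
    ↥(gp J m) →ₗ[K] ↥(gp J (m + 1)) :=
  LinearMap.restrict (LinearMap.mulLeft K (Ideal.Quotient.mk J p)) (p := gp J m)
    (q := gp J (m + 1)) (by
      rintro _ ⟨F, hF, rfl⟩
      refine ⟨p * F, ?_, ?_⟩
      · rw [add_comm m 1]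
        exact mul_mem' hp hF
      · exact map_mul (Ideal.Quotient.mk J) p F)

theorem mu_coe (J : Ideal (PR K 3)) {p : PR K 3} (hp : p ∈ fm K 3 1) (m : ℕ) (c : ↥(gp J m)) :
    (mu J hp m c : PR K 3 ⧸ J) = Ideal.Quotient.mk J p * (c : PR K 3 ⧸ J) := rfl

theorem mu_pc (J : Ideal (PR K 3)) {p : PR K 3} (hp : p ∈ fm K 3 1) (m : ℕ) (G : PR K 3) :
    mu J hp m (pc J m G) = pc J (m + 1) (p * G) := by
  apply Subtype.ext
  rw [mu_coe, pc_coe, pc_coe, COLaux.hc_mul hp, map_mul]

theorem mu_comm (J : Ideal (PR K 3)) {p p' : PR K 3} (hp : p ∈ fm K 3 1) (hp' : p' ∈ fm K 3 1)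
    (m : ℕ) (c : ↥(gp J m)) :
    mu J hp (m + 1) (mu J hp' m c) = mu J hp' (m + 1) (mu J hp m c) := by
  apply Subtype.ext
  rw [mu_coe, mu_coe, mu_coe, mu_coe]
  ring

/-- The twisted action on functionals. -/
noncomputable def rh (σ : PR K 3 →ₐ[K] PR K 3) :
    PR K 3 →+* Module.End K (Module.Dual K (PR K 3)) where
  toFun F := (LinearMap.mulLeft K (σ F)).dualMap
  map_one' := by
    refine LinearMap.ext fun φ => LinearMap.ext fun G => ?_
    change φ (σ 1 * G) = φ G
    rw [map_one, one_mul]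
  map_mul' := by
    intro F F'
    refine LinearMap.ext fun φ => LinearMap.ext fun G => ?_
    change φ (σ (F * F') * G) = φ (σ F' * (σ F * G))
    refine congrArg φ ?_
    rw [map_mul σ]
    ring
  map_zero' := by
    refine LinearMap.ext fun φ => LinearMap.ext fun G => ?_
    change φ (σ 0 * G) = 0
    rw [map_zero, zero_mul, map_zero]
  map_add' := by
    intro F F'
    refine LinearMap.ext fun φ => LinearMap.ext fun G => ?_
    change φ (σ (F + F') * G) = φ (σ F * G) + φ (σ F' * G)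
    rw [map_add, add_mul, map_add]

theorem rh_apply (σ : PR K 3 →ₐ[K] PR K 3) (F : PR K 3) (φ : Module.Dual K (PR K 3))
    (G : PR K 3) : rh σ F φ G = φ (σ F * G) := rfl

end CHJh

open CHJh in
/-- CHJ: the lemma for ideals. -/
theorem t_chj (hFIN : FINStmt) (hGPM : GPMStmt) (hGPD : GPDStmt) (hMON : MONStmt)
    (hCHA : CHAStmt) : CHJStmt := by
  classical
  intro K _ _ J t i q hJ hLv h1 h2 hi hs2 hs1 hq hN1 hN0 _ _
  obtain ⟨p₁, hp₁, p₂, hp₂, z, hz, e₁, e₂, ez, hP, hind, hsp, -⟩ := t_pti K q hq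
  have hfin : ∀ m, Module.Finite K ↥(gp J m) := (hGPM K 3 J).1
  have hdim : ∀ m, Module.finrank K ↥(gp J m) = hf J m := (hGPD K 3 J).1 hJ
  -- surjectivity of multiplications
  have hsurj : ∀ m, (∀ l ∈ fm K 3 1, l ≠ 0 → hf (J ⊔ Ideal.span {l}) (m + 1) = 0) →
      ∀ (l : PR K 3) (hl : l ∈ fm K 3 1), l ≠ 0 → Function.Surjective (mu J hl m) := by
    intro m hm l hl hl0 c
    obtain ⟨F, hF, rfl⟩ := pc_surj J (m + 1) c
    have h3 := hMON K 3 (J ⊔ Ideal.span {l}) ⊤ (m + 1) le_top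
    have h4 : F ∈ J ⊔ Ideal.span {l} := by
      refine h3.2 ?_ F trivial hF
      have := h3.1
      rw [hm l hl hl0] at this ⊢
      omega
    obtain ⟨j, hj, y, hy, hxy⟩ := Submodule.mem_sup.1 h4
    obtain ⟨g, rfl⟩ := Ideal.mem_span_singleton'.1 hy
    refine ⟨pc J m g, ?_⟩
    rw [mu_pc]
    apply Subtype.ext
    rw [pc_coe, pc_coe, ← hxy, map_add, map_add,
      Ideal.Quotient.eq_zero_iff_mem.2 (hJ j hj (m + 1)), zero_add, mul_comm]
  -- the pair of multiplications is injective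
  have hinj : ∀ m, NPq J m q → ∀ c : ↥(gp J m), mu J hp₁ m c = 0 → mu J hp₂ m c = 0 → c = 0 := by
    intro m hm c hc1 hc2
    obtain ⟨F, hF, rfl⟩ := pc_surj J m c
    rw [mu_pc, pc_zero (by rw [add_comm]; exact mul_mem' hp₁ hF)] at hc1
    rw [mu_pc, pc_zero (by rw [add_comm]; exact mul_mem' hp₂ hF)] at hc2
    rw [pc_zero hF]
    refine hm F hF fun l hl hlq => ?_
    obtain ⟨α, β, rfl⟩ := hP l hl hlq
    have h5 : (C α * p₁ + C β * p₂) * F = C α * (p₁ * F) + C β * (p₂ * F) := by ring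
    rw [h5]
    exact add_mem (J.mul_mem_left _ hc1) (J.mul_mem_left _ hc2)
  have hne₁ : p₁ ≠ 0 := by
    intro h
    have := (hind 1 0 (by rw [h]; simp)).1
    exact one_ne_zero this
  -- the conditions of CHA
  have hcomb : ∀ (m : ℕ) (α β : K) (h : C α * p₁ + C β * p₂ ∈ fm K 3 1) (c : ↥(gp J m)),
      mu J h m c = α • mu J hp₁ m c + β • mu J hp₂ m c := by
    intro m α β h c
    obtain ⟨F, hF, rfl⟩ := pc_surj J m c
    rw [mu_pc, mu_pc, mu_pc, ← map_smul, ← map_smul, ← map_add]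
    congr 1
    rw [smul_eq_C_mul, smul_eq_C_mul]
    ring
  have A1 : ∀ α β : K, (α ≠ 0 ∨ β ≠ 0) → ∀ v : Module.Dual K ↥(gp J (t + 1 + 1)),
      α • (mu J hp₁ (t + 1)).dualMap v + β • (mu J hp₂ (t + 1)).dualMap v = 0 → v = 0 := by
    intro α β hαβ v hv
    have hm : C α * p₁ + C β * p₂ ∈ fm K 3 1 := add_mem (C_mul_mem hp₁ α) (C_mul_mem hp₂ β)
    have h0 : C α * p₁ + C β * p₂ ≠ 0 := by
      intro h
      obtain ⟨ha, hb⟩ := hind α β h
      rcases hαβ with h | h
      · exact h ha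
      · exact h hb
    ext c
    obtain ⟨d, rfl⟩ := hsurj (t + 1) hs2 _ hm h0 c
    have h6 := LinearMap.congr_fun hv d
    rw [hcomb, map_add, map_smul, map_smul]
    exact h6
  have A2 : ∀ m : Module.Dual K ↥(gp J (t + 1)), ∃ v w : Module.Dual K ↥(gp J (t + 1 + 1)),
      m = (mu J hp₁ (t + 1)).dualMap v + (mu J hp₂ (t + 1)).dualMap w := by
    intro m
    have hi' : Function.Injective ((mu J hp₁ (t + 1)).prod (mu J hp₂ (t + 1))) := by
      rw [← LinearMap.ker_eq_bot, LinearMap.ker_eq_bot']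
      intro c hc
      change (mu J hp₁ (t + 1) c, mu J hp₂ (t + 1) c) = 0 at hc
      rw [Prod.mk_eq_zero] at hc
      exact hinj (t + 1) hN1 c hc.1 hc.2
    obtain ⟨ψ, hψ⟩ := LinearMap.dualMap_surjective_of_injective hi' m
    refine ⟨ψ ∘ₗ LinearMap.inl K _ _, ψ ∘ₗ LinearMap.inr K _ _, ?_⟩
    rw [← hψ]
    ext c
    simp only [LinearMap.dualMap_apply, LinearMap.add_apply, LinearMap.comp_apply]
    rw [← map_add]
    congr 1
    simp
  -- exactness in the middle
  have hmid : ∀ c c' : ↥(gp J (t + 1)), mu J hp₂ (t + 1) c = mu J hp₁ (t + 1) c' →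
      ∃ d : ↥(gp J t), c = mu J hp₁ t d ∧ c' = mu J hp₂ t d := by
    let φ : ↥(gp J t) →ₗ[K] ↥(gp J (t + 1)) × ↥(gp J (t + 1)) := (mu J hp₁ t).prod (mu J hp₂ t)
    let δ : ↥(gp J (t + 1)) × ↥(gp J (t + 1)) →ₗ[K] ↥(gp J (t + 1 + 1)) :=
      (mu J hp₂ (t + 1)) ∘ₗ LinearMap.fst K _ _ - (mu J hp₁ (t + 1)) ∘ₗ LinearMap.snd K _ _
    have hle : LinearMap.range φ ≤ LinearMap.ker δ := by
      rintro _ ⟨d, rfl⟩
      rw [LinearMap.mem_ker]
      change mu J hp₂ (t + 1) (mu J hp₁ t d) - mu J hp₁ (t + 1) (mu J hp₂ t d) = 0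
      rw [mu_comm, sub_self]
    have hφ : Function.Injective φ := by
      rw [← LinearMap.ker_eq_bot, LinearMap.ker_eq_bot']
      intro c hc
      change (mu J hp₁ t c, mu J hp₂ t c) = 0 at hc
      rw [Prod.mk_eq_zero] at hc
      exact hinj t hN0 c hc.1 hc.2
    have hδ : Function.Surjective δ := by
      intro c
      obtain ⟨d, rfl⟩ := hsurj (t + 1) hs2 p₁ hp₁ hne₁ c
      refine ⟨(0, -d), ?_⟩
      change mu J hp₂ (t + 1) 0 - mu J hp₁ (t + 1) (-d) = _
      rw [map_zero, map_neg]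
      abel
    have r1 : Module.finrank K ↥(LinearMap.range φ) = hf J t := by
      rw [LinearMap.finrank_range_of_inj hφ, hdim]
    have r2 := LinearMap.finrank_range_add_finrank_ker δ
    rw [LinearMap.range_eq_top.2 hδ, finrank_top, Module.finrank_prod, hdim, hdim] at r2
    have r3 : LinearMap.range φ = LinearMap.ker δ := by
      apply Submodule.eq_of_le_of_finrank_le hle
      change hf J (t + 2) + _ = _ at r2
      omega
    intro c c' h
    have h7 : (c, c') ∈ LinearMap.ker δ := by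
      rw [LinearMap.mem_ker]
      change mu J hp₂ (t + 1) c - mu J hp₁ (t + 1) c' = 0
      rw [h, sub_self]
    rw [← r3] at h7
    obtain ⟨d, hd⟩ := h7
    change (mu J hp₁ t d, mu J hp₂ t d) = (c, c') at hd
    rw [Prod.mk.injEq] at hd
    exact ⟨d, hd.1.symm, hd.2.symm⟩
  have A3 : ∀ m m' : Module.Dual K ↥(gp J (t + 1)),
      (mu J hp₁ t).dualMap m + (mu J hp₂ t).dualMap m' = 0 →
      ∃ v : Module.Dual K ↥(gp J (t + 1 + 1)), m = (mu J hp₂ (t + 1)).dualMap v ∧
        m' = - (mu J hp₁ (t + 1)).dualMap v := by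
    intro m m' hmm
    let δ : ↥(gp J (t + 1)) × ↥(gp J (t + 1)) →ₗ[K] ↥(gp J (t + 1 + 1)) :=
      (mu J hp₂ (t + 1)) ∘ₗ LinearMap.fst K _ _ - (mu J hp₁ (t + 1)) ∘ₗ LinearMap.snd K _ _
    let ψ : Module.Dual K (↥(gp J (t + 1)) × ↥(gp J (t + 1))) :=
      m ∘ₗ LinearMap.fst K _ _ + m' ∘ₗ LinearMap.snd K _ _
    have h8 : ψ ∈ LinearMap.range δ.dualMap := by
      rw [LinearMap.range_dualMap_eq_dualAnnihilator_ker, Submodule.mem_dualAnnihilator]
      rintro ⟨c, c'⟩ hcc
      rw [LinearMap.mem_ker] at hcc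
      change mu J hp₂ (t + 1) c - mu J hp₁ (t + 1) c' = 0 at hcc
      obtain ⟨d, rfl, rfl⟩ := hmid c c' (sub_eq_zero.1 hcc)
      exact LinearMap.congr_fun hmm d
    obtain ⟨v, hv⟩ := h8
    refine ⟨v, ?_, ?_⟩
    · ext c
      have h9 := LinearMap.congr_fun hv (c, 0)
      change v (mu J hp₂ (t + 1) c - mu J hp₁ (t + 1) 0) = m c + m' 0 at h9
      rw [map_zero, map_zero, sub_zero, add_zero] at h9
      exact h9.symm
    · ext c
      have h9 := LinearMap.congr_fun hv (0, c)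
      change v (mu J hp₂ (t + 1) 0 - mu J hp₁ (t + 1) c) = m 0 + m' c at h9
      rw [map_zero, map_zero, zero_sub, zero_add, map_neg] at h9
      exact h9.symm
  obtain ⟨n, hn, θ, hθn, hθ0, hθ⟩ := hCHA K (Module.Dual K ↥(gp J (t + 1 + 1)))
    (Module.Dual K ↥(gp J (t + 1))) (Module.Dual K ↥(gp J t))
    (mu J hp₁ (t + 1)).dualMap (mu J hz (t + 1)).dualMap (mu J hp₂ (t + 1)).dualMap
    (mu J hp₁ t).dualMap (mu J hz t).dualMap (mu J hp₂ t).dualMap i
    (fun v => by
      ext c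
      exact congrArg v (mu_comm J hz hp₁ t c))
    (fun v => by
      ext c
      exact congrArg v (mu_comm J hp₂ hp₁ t c))
    (fun v => by
      ext c
      exact congrArg v (mu_comm J hp₂ hz t c))
    A1 A2 A3
    (by
      rw [Subspace.dual_finrank_eq, Subspace.dual_finrank_eq, hdim, hdim]
      exact h1)
  -- the change of variables
  let σ : PR K 3 →ₐ[K] PR K 3 := aeval ![p₁, z, p₂]
  have hσ : ∀ (m : ℕ) (F : PR K 3), F ∈ fm K 3 m → σ F ∈ fm K 3 m := by
    intro m F hF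
    have h10 : IsHomogeneous (σ F) (1 * m) := by
      refine IsHomogeneous.aeval hF _ ?_
      intro j
      fin_cases j
      · exact hp₁
      · exact hz
      · exact hp₂
    rw [one_mul] at h10
    exact h10
  choose α β γ hαβγ using fun j : Fin 3 => hsp (X j) (X_mem1 j)
  let τ : PR K 3 →ₐ[K] PR K 3 := aeval fun j => C (α j) * X 0 + C (γ j) * X 1 + C (β j) * X 2
  have hτ : ∀ (m : ℕ) (F : PR K 3), F ∈ fm K 3 m → τ F ∈ fm K 3 m := by
    intro m F hF
    have h10 : IsHomogeneous (τ F) (1 * m) := by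
      refine IsHomogeneous.aeval hF _ ?_
      intro j
      exact add_mem (add_mem (C_mul_mem (X_mem1 0) _) (C_mul_mem (X_mem1 1) _))
        (C_mul_mem (X_mem1 2) _)
    rw [one_mul] at h10
    exact h10
  have hστ : ∀ F, σ (τ F) = F := by
    have h11 : σ.comp τ = AlgHom.id K (PR K 3) := by
      apply algHom_ext
      intro j
      have h12 : (σ.comp τ) (X j) = σ (C (α j) * X 0 + C (γ j) * X 1 + C (β j) * X 2) := by
        rw [AlgHom.comp_apply]
        congr 1
        exact aeval_X _ _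
      rw [h12, AlgHom.id_apply, hαβγ j]
      simp only [map_add, map_mul, σ, aeval_X, algHom_C]
      simp only [Matrix.cons_val_zero, Matrix.cons_val_one, Matrix.cons_val, algebraMap_eq]
      ring
    intro F
    exact DFunLike.congr_fun h11 F
  have hσinj : ∀ (m : ℕ) (F : PR K 3), F ∈ fm K 3 m → σ F = 0 → F = 0 := by
    intro m F hF hF0
    have := hFIN K 3 m
    let σ' : ↥(fm K 3 m) →ₗ[K] ↥(fm K 3 m) := σ.toLinearMap.restrict (fun G hG => hσ m G hG)
    have h13 : Function.Surjective σ' := by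
      rintro ⟨G, hG⟩
      refine ⟨⟨τ G, hτ m G hG⟩, Subtype.ext ?_⟩
      exact hστ G
    have h14 := LinearMap.injective_iff_surjective.2 h13
    have h15 : σ' ⟨F, hF⟩ = σ' 0 := by
      rw [map_zero]
      exact Subtype.ext hF0
    exact congrArg Subtype.val (h14 h15)
  -- the module of functionals
  let inst1 : Module (PR K 3) (Module.Dual K (PR K 3)) :=
    Module.compHom (Module.Dual K (PR K 3)) (rh σ)
  have hsm : ∀ (F : PR K 3) (φ : Module.Dual K (PR K 3)) (G : PR K 3),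
      (F • φ) G = φ (σ F * G) := fun F φ G => rfl
  have inst2 : IsScalarTower K (PR K 3) (Module.Dual K (PR K 3)) := by
    refine ⟨fun a F φ => LinearMap.ext fun G => ?_⟩
    rw [hsm, map_smul, smul_mul_assoc, map_smul, LinearMap.smul_apply, hsm]
  have hkey := hθ (Module.Dual K (PR K 3)) (pc J (t + 1 + 1)).dualMap (pc J (t + 1)).dualMap
    (by
      intro v
      refine LinearMap.ext fun G => ?_
      rw [hsm]
      have h16 : σ (X 0) = p₁ := aeval_X _ _
      rw [h16]
      change v (pc J (t + 1 + 1) (p₁ * G)) = v (mu J hp₁ (t + 1) (pc J (t + 1) G))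
      rw [mu_pc])
    (by
      intro v
      refine LinearMap.ext fun G => ?_
      rw [hsm]
      have h16 : σ (X 1) = z := aeval_X _ _
      rw [h16]
      change v (pc J (t + 1 + 1) (z * G)) = v (mu J hz (t + 1) (pc J (t + 1) G))
      rw [mu_pc])
    (by
      intro v
      refine LinearMap.ext fun G => ?_
      rw [hsm]
      have h16 : σ (X 2) = p₂ := aeval_X _ _
      rw [h16]
      change v (pc J (t + 1 + 1) (p₂ * G)) = v (mu J hp₂ (t + 1) (pc J (t + 1) G))
      rw [mu_pc])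
  have hσθ : σ θ ∈ fm K 3 n := hσ n θ hθn
  refine ⟨n, hn, σ θ, hσθ, fun h => hθ0 (hσinj n θ hθn h), ?_⟩
  have hdesc : ∀ j ≤ t + 2 - n, ∀ G ∈ fm K 3 (t + 2 - n - j), σ θ * G ∈ J := by
    intro j
    induction j with
    | zero =>
      intro _ G hG
      have h17 : σ θ * G ∈ fm K 3 (t + 1 + 1) := by
        have h18 := mul_mem' hσθ hG
        have h19 : n + (t + 2 - n - 0) = t + 1 + 1 := by omega
        rw [h19] at h18
        exact h18
      rw [← pc_zero h17, ← Module.forall_dual_apply_eq_zero_iff K]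
      intro v
      have h20 := LinearMap.congr_fun (hkey v) G
      rw [hsm] at h20
      exact h20
    | succ j ih =>
      intro hj G hG
      have h17 : σ θ * G ∈ fm K 3 (t + 1 - j) := by
        have h18 := mul_mem' hσθ hG
        have h19 : n + (t + 2 - n - (j + 1)) = t + 1 - j := by omega
        rw [h19] at h18
        exact h18
      refine hLv (t + 1 - j) (by omega) _ h17 fun l hl => ?_
      have h21 := ih (by omega) (l * G) (by
        have h18 := mul_mem' hl hG
        have h19 : 1 + (t + 2 - n - (j + 1)) = t + 2 - n - j := by omega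
        rw [h19] at h18
        exact h18)
      have h22 : l * (σ θ * G) = σ θ * (l * G) := by ring
      rw [h22]
      exact h21
  have h23 := hdesc (t + 2 - n) le_rfl 1 (by
    rw [Nat.sub_self]
    exact isHomogeneous_one _ _)
  rw [mul_one] at h23
  exact h23

end Pool.EG3
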