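import Pool.Agent.H45.EG3.S3

/-!
# EG3, row CMP: compression at a place
-/

set_option autoImplicit false

namespace Pool.EG3

open Finset Pool.EGH
open Pool.EGC (lx sl cj Gs)

/-- CMP. -/
theorem t_cmp (hG : SGEStmt) (hU : SUPStmt) (hS1 : SL1Stmt) (hS2 : SL2Stmt) (hS3 : SL3Stmt)
    (hS4 : SL4Stmt) (hW : CMWStmt) : CMPStmt := by
  classical
  intro m hm c hc d A i hA
  set c' : Fin m → ℕ∞ := c ∘ i.succAbove with hc'
  obtain ⟨hAn, hlx, hMo⟩ := hS2 m c i
  obtain ⟨hA1, hA2, hA3, hA4, hA5⟩ := hS1 m c d i A hA
  -- the segments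
  have hex : ∀ t, ∃ T : Finset (Fin m → ℕ), (t ≤ d → Sg c' (d - t) T) ∧
      (t ≤ d → T.card = (sl i t A).card) := by
    intro t
    by_cases ht : t ≤ d
    · obtain ⟨T, hT, hTc⟩ := (hG m c' (d - t)).1 (sl i t A).card (card_le_card (hA2 t ht))
      exact ⟨T, fun _ => hT, fun _ => hTc⟩
    · exact ⟨∅, fun h => absurd h ht, fun h => absurd h ht⟩
  choose T hT hTc using hex
  obtain ⟨A', hA', hsl⟩ := hS4 m c d i T (fun t ht => (hT t ht).1)
  obtain ⟨hB1, hB2, hB3, hB4, hB5⟩ := hS1 m c d i A' hA'
  have hcard : ∀ t, (sl i t A').card = (sl i t A).card := by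
    intro t
    by_cases ht : t ≤ d
    · by_cases hci : c i ≤ (t : ℕ∞)
      · rw [hB4 t hci, hA4 t hci]
      · have hcond : (t : ℕ∞) < c i := not_le.mp hci
        rw [hsl t ht hcond, hTc t ht]
    · rw [hB3 t (not_le.mp ht), hA3 t (not_le.mp ht)]
  have hupA : up c d A ⊆ Mo c (d + 1) := filter_subset _ _
  have hupA' : up c d A' ⊆ Mo c (d + 1) := filter_subset _ _
  obtain ⟨-, -, hC3, hC4, hC5⟩ := hS1 m c (d + 1) i _ hupA
  obtain ⟨-, -, hD3, hD4, hD5⟩ := hS1 m c (d + 1) i _ hupA'
  have hcm : Cm c d i A' := by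
    intro x hx y hy hxy hlt
    have hx' : (i.insertNth (x i) (fun j => x (i.succAbove j)) : Fin (m + 1) → ℕ) = x := by
      have := Fin.insertNth_self_removeNth i x
      exact this
    have hy' : (i.insertNth (x i) (fun j => y (i.succAbove j)) : Fin (m + 1) → ℕ) = y := by
      rw [hxy]
      have := Fin.insertNth_self_removeNth i y
      exact this
    have hxM := hA' hx
    have hxs : (fun j => x (i.succAbove j)) ∈ sl i (x i) A' := by
      rw [hB1, hx']; exact hx
    rw [← hx', hMo] at hxM
    rw [← hy', hMo] at hy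
    have hlt' : lx (fun j => x (i.succAbove j)) (fun j => y (i.succAbove j)) := by
      rw [← hlx (x i), hx', hy']; exact hlt
    rw [hsl _ hxM.1 hxM.2.1] at hxs
    have := (hT _ hxM.1).2 _ hxs _ hy.2.2 hlt'
    rw [← hsl _ hxM.1 hxM.2.1, hB1, hy'] at this
    exact this
  refine ⟨A', hA', ?_, ?_, hcm, fun hne => hW m c d i A A' hA hA' hcard hcm hne⟩
  · rw [hB5, hA5]
    exact sum_congr rfl (fun t _ => hcard t)
  · rw [hC5, hD5]
    refine sum_le_sum (fun t ht => ?_)
    rw [mem_range] at ht
    by_cases hci : c i ≤ (t : ℕ∞)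
    · rw [hD4 t hci]; simp
    have hcond : (t : ℕ∞) < c i := not_le.mp hci
    have h3A := hS3 m c d i A hA t hcond
    have h3B := hS3 m c d i A' hA' t hcond
    -- first part
    have hp1 : t ≤ d → (up c' (d - t) (sl i t A')).card ≤ (sl i t (up c d A)).card := by
      intro htd
      rw [hsl t htd hcond]
      refine (hm c' (hAn hc) (d - t) (sl i t A) (T t) (hA2 t htd) (hT t htd) (hTc t htd)).trans
        (card_le_card ?_)
      intro x hx
      rw [h3A]
      exact Or.inl ⟨htd, hx⟩
    have hp2 : 1 ≤ t → (sl i (t - 1) A').card ≤ (sl i t (up c d A)).card := by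
      intro ht1
      rw [hcard]
      refine card_le_card ?_
      intro x hx
      rw [h3A]
      exact Or.inr ⟨ht1, hx⟩
    by_cases htd : t ≤ d
    · by_cases ht1 : 1 ≤ t
      · have hs1 : Sg c' (d - t + 1) (up c' (d - t) (sl i t A')) := by
          rw [hsl t htd hcond]
          exact hU m c' (d - t) _ (hT t htd)
        have hs2 : Sg c' (d - t + 1) (sl i (t - 1) A') := by
          rw [hsl (t - 1) (by omega) (lt_of_le_of_lt (by exact_mod_cast Nat.sub_le t 1) hcond)]
          have := hT (t - 1) (by omega)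
          rwa [show d - (t - 1) = d - t + 1 by omega] at this
        rcases le_total (up c' (d - t) (sl i t A')).card (sl i (t - 1) A').card with hle | hle
        · have hsub := (hG m c' (d - t + 1)).2 _ _ hs1 hs2 hle
          refine le_trans (card_le_card ?_) (hp2 ht1)
          intro x hx
          rw [h3B] at hx
          rcases hx with h | h
          · exact hsub h.2
          · exact h.2
        · have hsub := (hG m c' (d - t + 1)).2 _ _ hs2 hs1 hle
          refine le_trans (card_le_card ?_) (hp1 htd)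
          intro x hx
          rw [h3B] at hx
          rcases hx with h | h
          · exact h.2
          · exact hsub h.2
      · refine le_trans (card_le_card ?_) (hp1 htd)
        intro x hx
        rw [h3B] at hx
        rcases hx with h | h
        · exact h.2
        · exact absurd h.1 ht1
    · refine le_trans (card_le_card ?_) (hp2 (by omega))
      intro x hx
      rw [h3B] at hx
      rcases hx with h | h
      · exact absurd h.1 htd
      · exact h.2

end Pool.EG3
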